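import Pool.Agent.Lib.MP_6ec4b3_lc.Interfaces

/-!
# Module WORD
-/

namespace Pool.Agent.Polya.H53

open Pool.Agent.Polya

theorem flatMap_finRange_mul {M : ℕ} (g : Fin (M * 4) → List Bool) :
    (List.finRange (M * 4)).flatMap g =
      (List.finRange M).flatMap fun j => g (finProdFinEquiv (j, 0)) ++
        (g (finProdFinEquiv (j, 1)) ++ (g (finProdFinEquiv (j, 2)) ++
          g (finProdFinEquiv (j, 3)))) := by
  have h := List.ofFn_mul (m := M) (n := 4) g
  rw [List.flatMap_def, ← List.ofFn_eq_map, h, List.flatten_flatten, List.map_ofFn,
    List.flatMap_def, ← List.ofFn_eq_map]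
  congr 1
  congr 1
  funext j
  have e : ∀ a : Fin 4, ∀ h, (⟨j.val * 4 + a.val, h⟩ : Fin (M * 4)) = finProdFinEquiv (j, a) := by
    intro a h
    ext
    simp [finProdFinEquiv]
    omega
  simp only [Function.comp]
  simp only [e]
  simp [List.ofFn_succ]

theorem blockPerm_val {M : ℕ} (f : Fin M → Equiv.Perm (Fin 4)) (j : Fin M) (a : Fin 4) :
    (blockPerm f (finProdFinEquiv (j, a))).val = (f j a).val + 4 * j.val := by
  unfold blockPerm
  rw [Equiv.permCongr_apply, Equiv.symm_apply_apply]
  simp [finProdFinEquiv]

theorem word_block {M : ℕ} (f : Fin M → Equiv.Perm (Fin 4)) :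
    ((List.finRange (M * 4)).flatMap fun i => unaryW (blockPerm f i).val) =
      (List.finRange M).flatMap fun j => (unaryW ((f j 0).val + 4 * j.val)) ++
        (unaryW ((f j 1).val + 4 * j.val) ++ (unaryW ((f j 2).val + 4 * j.val) ++
          unaryW ((f j 3).val + 4 * j.val))) := by
  rw [flatMap_finRange_mul]
  simp only [blockPerm_val]

theorem rep_val (p q : Bool) (a : Fin 4) : (rep p q a).val = repN p q a.val := by
  revert p q a
  decide

theorem cen_val (a : Fin 4) : (cen a).val = cenN a.val := by
  revert a
  decide

theorem zip_range {α : Type*} (rows : List α) :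
    (List.range rows.length).zip rows =
      (List.finRange rows.length).map fun j => (j.val, rows.get j) := by
  apply List.ext_getElem
  · simp
  · intro i h1 h2
    simp

theorem flatMap_range {n : ℕ} (g : ℕ → List Bool) :
    (List.range n).flatMap g = (List.finRange n).flatMap fun j => g j.val := by
  have : List.range n = (List.finRange n).map Fin.val := by
    simp
  rw [this, List.flatMap_map]

theorem len_unaryW (n : ℕ) : (unaryW n).length = n + 1 := by
  simp [unaryW]

theorem len_flatMap_le {α : Type*} (l : List α) (g : α → List Bool) (c : ℕ)
    (h : ∀ a ∈ l, (g a).length ≤ c) : (l.flatMap g).length ≤ l.length * c := by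
  induction l with
  | nil => simp
  | cons a l ih =>
    have h1 := h a (by simp)
    have h2 := ih (fun b hb => h b (by simp [hb]))
    rw [List.flatMap_cons, List.length_append, List.length_cons, Nat.succ_mul]
    omega

theorem word_main : WORD := by
  refine ⟨?_, ?_, ?_⟩
  · intro L rows
    unfold inputWord word gens
    congr 1
    rw [List.flatMap_append, List.flatMap_map, List.flatMap_map]
    congr 1
    · rw [flatMap_range]
      congr 1
      funext i
      rw [word_block, zip_range, List.flatMap_map]
      congr 1
      funext j
      simp only [List.flatMap_cons, List.flatMap_nil, List.append_nil, rep_val]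
      rfl
    · rw [flatMap_range]
      congr 1
      funext j
      rw [word_block, flatMap_range]
      congr 1
      funext j'
      simp only [List.flatMap_cons, List.flatMap_nil, List.append_nil]
      by_cases h : j' = j
      · subst h
        simp only [if_true, cen_val]
        rfl
      · have h' : ¬ j'.val = j.val := fun h'' => h (Fin.ext h'')
        simp only [h, h', if_false]
        rfl
  · intro L rows
    simp [gens]
  · intro m gs
    unfold inputWord
    rw [List.length_append, len_unaryW]
    have h := len_flatMap_le gs (fun g => (List.finRange m).flatMap fun i => unaryW (g i).val)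
      (m * m) (fun g _ => by
        have := len_flatMap_le (List.finRange m) (fun i => unaryW (g i).val) m (fun i _ => by
          have := (g i).isLt
          simp only [len_unaryW]
          omega)
        simpa using this)
    rw [mul_assoc]
    omega

end Pool.Agent.Polya.H53
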